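import Pool.Agent.H165R4.CU.Stmts

set_option autoImplicit false

open Set Filter Topology MeasureTheory Function
open scoped ContDiff ENNReal Real

namespace Pool.Agent.H331R3.CU

open Pool.Agent.H165R4.CU

lemma coe_zero_iff {y : ℝ} (h : (y : UnitAddCircle) = 0) : ∃ m : ℤ, y = m := by
  rw [AddCircle.coe_eq_zero_iff] at h
  obtain ⟨m, hm⟩ := h
  exact ⟨m, by rw [← hm]; simp⟩

lemma norm_u (n : ℕ) :
    ‖((Real.goldenRatio ^ n * Real.goldenRatio, Real.goldenRatio ^ n, 0) : V3)‖ =
      Real.goldenRatio ^ (n + 1) := by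
  have h1 : 1 < Real.goldenRatio := Real.one_lt_goldenRatio
  have h0 : 0 < Real.goldenRatio := by linarith
  have hp : 0 < Real.goldenRatio ^ n := pow_pos h0 n
  rw [Prod.norm_def, Prod.norm_def]
  simp only [Real.norm_eq_abs, abs_zero]
  rw [abs_of_pos hp, abs_of_pos (mul_pos hp h0), max_eq_left hp.le, max_eq_left, pow_succ]
  nlinarith

lemma norm_v (c : ℝ) (hc : 0 < c) : ‖((0, 0, c) : V3)‖ = c := by
  rw [Prod.norm_def, Prod.norm_def]
  simp only [Real.norm_eq_abs, abs_zero]
  rw [abs_of_pos hc, max_eq_right hc.le, max_eq_right hc.le]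

theorem taskExp_of (hD : TaskDer) : TaskExp := by
  intro hL hI hB
  have hemb : MeasurableEmbedding
      (fun w : UnitAddCircle × UnitAddCircle => ((w.1, w.2, (0 : UnitAddCircle)) : T3)) := by
    have h1 : Continuous
        (fun w : UnitAddCircle × UnitAddCircle => ((w.1, w.2, (0 : UnitAddCircle)) : T3)) := by
      fun_prop
    have h2 : Injective
        (fun w : UnitAddCircle × UnitAddCircle => ((w.1, w.2, (0 : UnitAddCircle)) : T3)) := by
      intro a b h
      have h3 : a.1 = b.1 := congrArg (fun t : T3 => t.1) h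
      have h4 : a.2 = b.2 := congrArg (fun t : T3 => t.2.1) h
      exact Prod.ext h3 h4
    exact (h1.isClosedEmbedding h2).measurableEmbedding
  unfold HasExponents mu
  rw [hemb.ae_map_iff]
  have hB' : ∀ᵐ w ∂(volume : Measure (UnitAddCircle × UnitAddCircle)),
    Tendsto (fun n : ℕ => (n : ℝ)⁻¹ * ∑ k ∈ Finset.range n, lc (rep ((bb^[k]) w).1)) atTop
      (𝓝 (-(3 / 32))) := hB
  filter_upwards [hB'] with w hw
  intro z hz
  obtain ⟨x1, x2, y⟩ := z
  have hz1 : (x1 : UnitAddCircle) = w.1 := congrArg Prod.fst hz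
  have hz2 : (x2 : UnitAddCircle) = w.2 := congrArg (fun t : T3 => t.2.1) hz
  have hz3 : (y : UnitAddCircle) = 0 := congrArg (fun t : T3 => t.2.2) hz
  obtain ⟨m, rfl⟩ := coe_zero_iff hz3
  have hww : ((x1 : UnitAddCircle), (x2 : UnitAddCircle)) = w := Prod.ext hz1 hz2
  refine ⟨(Real.goldenRatio, 1, 0), Submodule.subset_span (by simp), (0, 0, 1),
    Submodule.subset_span (by simp), ?_, ?_, Real.log Real.goldenRatio, -(3 / 32),
    Real.log_pos Real.one_lt_goldenRatio, by norm_num, ?_, ?_⟩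
  · intro h
    have : (1 : ℝ) = 0 := congrArg (fun t : V3 => t.2.1) h
    exact one_ne_zero this
  · intro h
    have : (1 : ℝ) = 0 := congrArg (fun t : V3 => t.2.2) h
    exact one_ne_zero this
  · have h1 : ∀ n : ℕ, 0 < n → (1 / (n : ℝ)) * Real.log ‖fderiv ℝ (FF^[n]) (x1, x2, (m : ℝ))
        (Real.goldenRatio, 1, 0)‖ = Real.log Real.goldenRatio +
          (n : ℝ)⁻¹ * Real.log Real.goldenRatio := by
      intro n hn
      obtain ⟨D, hD1, hD2, -⟩ := hI hL hD x1 x2 m n
      rw [hD1.fderiv, hD2, norm_u, Real.log_pow]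
      have : (n : ℝ) ≠ 0 := by exact_mod_cast hn.ne'
      push_cast
      field_simp
    have h2 : Tendsto (fun n : ℕ => Real.log Real.goldenRatio +
        (n : ℝ)⁻¹ * Real.log Real.goldenRatio) atTop (𝓝 (Real.log Real.goldenRatio)) := by
      have h3 : Tendsto (fun n : ℕ => (n : ℝ)⁻¹) atTop (𝓝 0) := tendsto_inv_atTop_nhds_zero_nat
      have h4 := (h3.mul_const (Real.log Real.goldenRatio)).const_add (Real.log Real.goldenRatio)
      simpa using h4
    refine h2.congr' ?_
    filter_upwards [eventually_gt_atTop 0] with n hn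
    exact (h1 n hn).symm
  · refine hw.congr fun n => ?_
    obtain ⟨D, hD1, -, c, hc, hD3, hD4⟩ := hI hL hD x1 x2 m n
    rw [hD1.fderiv, hD3, norm_v c hc, hD4, hww, one_div]

end Pool.Agent.H331R3.CU
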